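import Pool.Agent.SeqDil.CertB
import Pool.Agent.SeqDil.CertC
import Pool.Agent.SeqDil.CertD
import Pool.Agent.SeqDil.CertE
import Pool.Agent.SeqDil.CertF

/-!
# The consequences of the dilation laws used below (43-smooth multipliers, numbers up to 1000)
-/

namespace Pool.Agent.SeqNear

open Pool.Agent.SeqDil

theorem good_of {a : ℕ → ℕ} (h1 : a 1 = 1) (he : ∀ n, 1 ≤ n → a (2 * n) = a n)
    (ho : ∀ n, 1 ≤ n → IsLeast {x : ℕ | 0 < x ∧ |(x : ℤ) - (a (2 * n - 1) : ℤ)| = (a n : ℤ)}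
      (a (2 * n + 1))) : Good a := by
  refine ⟨h1, he, fun n hn => ?_⟩
  obtain ⟨⟨hpos, habs⟩, hmin⟩ := ho n hn
  rcases Nat.lt_or_ge (a n) (a (2 * n - 1)) with h | h
  · rw [stp_gt h]
    have hle : a (2 * n + 1) ≤ a (2 * n - 1) - a n := by
      apply hmin
      refine ⟨by omega, ?_⟩
      rw [Nat.cast_sub h.le]
      have : ((a (2 * n - 1) : ℤ) - (a n : ℤ)) - (a (2 * n - 1) : ℤ) = -(a n : ℤ) := by ring
      rw [this, abs_neg, abs_of_nonneg (by positivity)]
    rcases abs_eq (by positivity : (0 : ℤ) ≤ (a n : ℤ)) |>.mp habs with h' | h'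
    · omega
    · omega
  · rw [stp_le h]
    rcases abs_eq (by positivity : (0 : ℤ) ≤ (a n : ℤ)) |>.mp habs with h' | h'
    · omega
    · omega

theorem prime_mult {a : ℕ → ℕ} (G : Good a) (q : ℕ) (hq : q.Prime) (h2 : q ≠ 2)
    (h43 : q ≤ 43) : ∃ c, Law a c q := by
  interval_cases q <;>
    first
    | exact ⟨3, law_three G⟩
    | exact mult_5_1_1 G
    | exact mult_7_1_1 G
    | exact mult_11_1_5 G
    | exact mult_13_5_3 G
    | exact mult_17_11_7 G
    | exact mult_19_11_3 G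
    | exact mult_23_7_5 G
    | exact mult_29_11_5 G
    | exact mult_31_1_7 G
    | exact mult_37_11_3 G
    | exact mult_41_11_5 G
    | exact mult_43_23_3 G
    | exact absurd rfl h2
    | (exfalso; revert hq; norm_num)

theorem smooth_mult {a : ℕ → ℕ} (G : Good a) (s : ℕ) : Odd s →
    (∀ q : ℕ, q.Prime → q ∣ s → q ≤ 43) → ∃ c, Law a c s := by
  induction s using induction_on_primes with
  | zero => intro h; exact absurd h (by decide)
  | one => intro _ _; exact ⟨0, fun k i _ _ => by rw [Nat.zero_mul, Nat.zero_add, Nat.one_mul]⟩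
  | prime_mul p s hp ih =>
    intro hodd hq
    have hps := Nat.odd_mul.mp hodd
    obtain ⟨c, hc⟩ := prime_mult G p hp (by
      rintro rfl
      exact absurd hps.1 (by decide)) (hq p hp (dvd_mul_right p s))
    obtain ⟨d, hd⟩ := ih hps.2 (fun q hq' hd => hq q hq' (Dvd.dvd.mul_left hd p))
    exact Law.comp hc hd

theorem closed_mult {a : ℕ → ℕ} {c s : ℕ} (hc : Law a c s) {m : ℕ}
    (h : ∃ n, 1 ≤ n ∧ a n = m) : ∃ n, 1 ≤ n ∧ a n = s * m := by
  obtain ⟨n, hn, rfl⟩ := h
  exact ⟨c * 2 ^ n + n, by omega, hc n n hn Nat.lt_two_pow_self⟩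

theorem small_dvd {q : ℕ} (h : q ∈ smallPrimes) : q.Prime ∧ q ≠ 2 ∧ q ≤ 43 := by
  unfold smallPrimes at h
  simp only [List.mem_cons, List.not_mem_nil, or_false] at h
  rcases h with rfl | rfl | rfl | rfl | rfl | rfl | rfl | rfl | rfl | rfl | rfl | rfl | rfl <;>
    norm_num

theorem upto_1000 {a : ℕ → ℕ} (G : Good a) : ∀ r, 1 ≤ r → r ≤ 1000 → ∃ n, 1 ≤ n ∧ a n = r := by
  intro r
  induction r using Nat.strong_induction_on with
  | _ r ih =>
    intro h1 h2
    have hc := covAll_sound 1000 covAll_ok r h1 h2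
    rw [cov, Bool.or_eq_true] at hc
    rcases hc with hc | hc
    · obtain ⟨q, hq, hb⟩ := List.any_eq_true.mp hc
      have hd : q ∣ r := Nat.dvd_of_mod_eq_zero (Nat.eq_of_beq_eq_true hb)
      obtain ⟨hp, hq2, hq43⟩ := small_dvd hq
      obtain ⟨r', rfl⟩ := hd
      have hr' : 1 ≤ r' := by
        rcases Nat.eq_zero_or_pos r' with h | h
        · rw [h, Nat.mul_zero] at h1; omega
        · exact h
      have hlt : r' < q * r' := by
        have := Nat.mul_le_mul_right r' hp.two_le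
        omega
      obtain ⟨c, hc⟩ := prime_mult G q hp hq2 hq43
      exact closed_mult hc (ih r' hlt hr' (by omega))
    · obtain ⟨x, hx, hb⟩ := List.any_eq_true.mp hc
      have hrx : r = x := Nat.eq_of_beq_eq_true hb
      rw [hrx]
      exact allr_value G hx

end Pool.Agent.SeqNear
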