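import Pool.Agent.SeqDil.CertA

/-!
# Windows of the halving-and-difference sequence as linear forms `α X + β`
-/

namespace Pool.Agent.SeqNear

open Pool.Agent.SeqDil

/-- value of the linear form `f.1 * X + f.2` -/
def ev (X : ℤ) (f : ℤ × ℤ) : ℤ := f.1 * X + f.2

/-- lexicographic comparison (the leading coefficient first) -/
def ltF (v x : ℤ × ℤ) : Bool := decide (v.1 < x.1) || (decide (v.1 = x.1) && decide (v.2 < x.2))

def stpF (x v : ℤ × ℤ) : ℤ × ℤ :=
  bif ltF v x then (x.1 - v.1, x.2 - v.2) else (x.1 + v.1, x.2 + v.2)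

def nxtF : (ℤ × ℤ) → List (ℤ × ℤ) → List (ℤ × ℤ)
  | _, [] => []
  | x, v :: vs => v :: stpF x v :: nxtF (stpF x v) vs

/-- all comparisons made by `nxtF` are correct for `X ≥ B` -/
def okF (B : ℤ) : (ℤ × ℤ) → List (ℤ × ℤ) → Bool
  | _, [] => true
  | x, v :: vs => (decide (x.2 - v.2 < B) && decide (v.2 - x.2 < B)) && okF B (stpF x v) vs

def RepF (a : ℕ → ℕ) (X : ℤ) : ℕ → List (ℤ × ℤ) → Prop
  | _, [] => True
  | p, v :: vs => (a p : ℤ) = ev X v ∧ RepF a X (p + 1) vs

theorem stp_ev {X B : ℤ} (hX : B ≤ X) (hB : 0 < B) {p q : ℕ} {x v : ℤ × ℤ}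
    (hp : (p : ℤ) = ev X x) (hq : (q : ℤ) = ev X v) (h1 : x.2 - v.2 < B) (h2 : v.2 - x.2 < B) :
    ((stp p q : ℕ) : ℤ) = ev X (stpF x v) := by
  obtain ⟨x1, x2⟩ := x
  obtain ⟨v1, v2⟩ := v
  simp only [ev] at hp hq
  simp only at h1 h2
  have hX0 : 0 < X := by omega
  have key : q < p ↔ ltF (v1, v2) (x1, x2) = true := by
    simp only [ltF, Bool.or_eq_true, Bool.and_eq_true, decide_eq_true_eq]
    constructor
    · intro h
      have h' : (q : ℤ) < p := by exact_mod_cast h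
      rw [hp, hq] at h'
      rcases lt_trichotomy v1 x1 with h3 | h3 | h3
      · exact Or.inl h3
      · right
        subst h3
        exact ⟨rfl, by linarith⟩
      · exfalso
        have : (x1 + 1) * X ≤ v1 * X := mul_le_mul_of_nonneg_right (by omega) hX0.le
        nlinarith
    · rintro (h3 | ⟨h3, h4⟩)
      · have : (v1 + 1) * X ≤ x1 * X := mul_le_mul_of_nonneg_right (by omega) hX0.le
        have h' : (q : ℤ) < p := by rw [hp, hq]; nlinarith
        exact_mod_cast h'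
      · subst h3
        have h' : (q : ℤ) < p := by rw [hp, hq]; linarith
        exact_mod_cast h'
  rcases Nat.lt_or_ge q p with h | h
  · have hl := key.mp h
    rw [stp_gt h, stpF, hl, cond_true, Nat.cast_sub h.le, hp, hq, ev]
    ring
  · have hl : ltF (v1, v2) (x1, x2) = false := by
      rcases Bool.eq_false_or_eq_true (ltF (v1, v2) (x1, x2)) with h' | h'
      · exact absurd (key.mpr h') (by omega)
      · exact h'
    rw [stp_le h, stpF, hl, cond_false, Nat.cast_add, hp, hq, ev]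
    ring

theorem RepF.nxt {a : ℕ → ℕ} (G : Good a) {X B : ℤ} (hX : B ≤ X) (hB : 0 < B) :
    ∀ (L : List (ℤ × ℤ)) (p : ℕ) (x : ℤ × ℤ), 1 ≤ p → (a (2 * p - 1) : ℤ) = ev X x →
      okF B x L = true → RepF a X p L → RepF a X (2 * p) (nxtF x L)
  | [], _, _, _, _, _, _ => trivial
  | v :: vs, p, x, hp, hx, hok, h => by
    rw [okF, Bool.and_eq_true, Bool.and_eq_true, decide_eq_true_eq, decide_eq_true_eq] at hok
    obtain ⟨⟨h1, h2⟩, h3⟩ := hok
    have ho := G.odd p hp
    have hs := stp_ev hX hB hx h.1 h1 h2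
    rw [← ho] at hs
    refine ⟨by rw [G.even p hp]; exact h.1, hs, ?_⟩
    have e : 2 * p + 1 + 1 = 2 * (p + 1) := by ring
    rw [e]
    refine RepF.nxt G hX hB vs (p + 1) _ (by omega) ?_ h3 h.2
    have e2 : 2 * (p + 1) - 1 = 2 * p + 1 := by omega
    rw [e2]; exact hs

/-- the symbolic window at level `t` after a center with data `(u, m)` -/
def winF (u m : ℤ) (par : ℕ) : ℕ → List (ℤ × ℤ)
  | 0 => [(0, u)]
  | t + 1 => nxtF (m * (mm (par + t + 1) : ℕ), 0) (winF u m par t)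

/-- all comparisons up to level `t` are correct for `X ≥ B` -/
def okW (B u m : ℤ) (par : ℕ) : ℕ → Bool
  | 0 => true
  | t + 1 => okF B (m * (mm (par + t + 1) : ℕ), 0) (winF u m par t) && okW B u m par t

theorem mm_scale (j : ℕ) : ∀ s, 1 ≤ s → mm (2 * j + s) = mm s * 3 ^ j := by
  induction j with
  | zero => intro s _; simp
  | succ j ih =>
    intro s hs
    have e : 2 * (j + 1) + s = (2 * j + s) + 2 := by ring
    rw [e, mm_add_two _ (by omega), ih s hs]
    ring

theorem winF_rep {a : ℕ → ℕ} (G : Good a) {D u m : ℕ} (hS : St a D u m) (par j : ℕ) {B : ℤ}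
    (hB : 0 < B) (hX : B ≤ 3 ^ j) : ∀ t, okW B u m par t = true →
    RepF a (3 ^ j) (2 ^ (2 * j + par + t) * D) (winF u m par t)
  | 0, _ => by
    show RepF a (3 ^ j) (2 ^ (2 * j + par + 0) * D) [((0 : ℤ), (u : ℤ))]
    refine ⟨?_, trivial⟩
    rw [even_pow G hS.1, hS.2.1]
    simp [ev]
  | t + 1, hok => by
    rw [okW, Bool.and_eq_true] at hok
    show RepF a (3 ^ j) (2 ^ (2 * j + par + (t + 1)) * D)
      (nxtF (m * (mm (par + t + 1) : ℕ), 0) (winF u m par t))
    have e : 2 ^ (2 * j + par + (t + 1)) * D = 2 * (2 ^ (2 * j + par + t) * D) := by ring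
    rw [e]
    refine RepF.nxt G hX hB _ _ _ (Nat.mul_pos (by positivity) hS.1) ?_ hok.1
      (winF_rep G hS par j hB hX t hok.2)
    rw [← e, hS.2.2 _ (by omega)]
    have e2 : 2 * j + par + (t + 1) = 2 * j + (par + t + 1) := by ring
    rw [e2, mm_scale j _ (by omega)]
    simp only [ev]
    push_cast
    ring

theorem RepF.mem {a : ℕ → ℕ} {X : ℤ} : ∀ (L : List (ℤ × ℤ)) (p : ℕ) (f : ℤ × ℤ), 1 ≤ p →
    RepF a X p L → f ∈ L → ∃ n, 1 ≤ n ∧ (a n : ℤ) = ev X f
  | [], _, _, _, _, hf => by simp at hf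
  | v :: vs, p, f, hp, h, hf => by
    rcases List.mem_cons.mp hf with h1 | h1
    · subst h1; exact ⟨p, hp, h.1⟩
    · exact RepF.mem vs (p + 1) f (by omega) h.2 h1

/-- `f` is an entry of the list (kernel friendly) -/
def memF (f : ℤ × ℤ) : List (ℤ × ℤ) → Bool
  | [] => false
  | v :: vs => (decide (v.1 = f.1) && decide (v.2 = f.2)) || memF f vs

theorem memF_sound {f : ℤ × ℤ} : ∀ L : List (ℤ × ℤ), memF f L = true → f ∈ L
  | [], h => by simp [memF] at h
  | v :: vs, h => by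
    rw [memF, Bool.or_eq_true, Bool.and_eq_true, decide_eq_true_eq, decide_eq_true_eq] at h
    rcases h with ⟨h1, h2⟩ | h
    · have : f = v := Prod.ext h1.symm h2.symm
      rw [this]; exact List.mem_cons_self
    · exact List.mem_cons_of_mem _ (memF_sound vs h)

/-- `z` is a value of the sequence -/
def Val (a : ℕ → ℕ) (z : ℤ) : Prop := ∃ n, 1 ≤ n ∧ (a n : ℤ) = z

/-- reading off a value -/
theorem val_of_win {a : ℕ → ℕ} (G : Good a) {D u m : ℕ} (hS : St a D u m) (par t r J : ℕ)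
    (B b : ℤ) (hB : 0 < B) (hJ : B ≤ 3 ^ J) (hok : okW B u m par t = true)
    (hm : memF (3 ^ r, b) (winF u m par t) = true) :
    ∀ j, r + J ≤ j → Val a (3 ^ j + b) := by
  intro j hj
  obtain ⟨i, rfl⟩ : ∃ i, j = r + i := ⟨j - r, by omega⟩
  have hX : B ≤ 3 ^ i := hJ.trans (pow_le_pow_right₀ (by norm_num) (by omega))
  have hr := winF_rep G hS par i hB hX t hok
  obtain ⟨n, hn, h⟩ := RepF.mem _ _ _ (Nat.mul_pos (by positivity) hS.1) hr (memF_sound _ hm)
  refine ⟨n, hn, ?_⟩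
  rw [h]
  simp only [ev]
  rw [pow_add]

theorem Val.three {a : ℕ → ℕ} (G : Good a) {z : ℤ} (h : Val a z) : Val a (3 * z) := by
  obtain ⟨n, hn, rfl⟩ := h
  refine ⟨3 * 2 ^ n + n, by omega, ?_⟩
  rw [law_three G n n hn Nat.lt_two_pow_self]
  push_cast
  ring

end Pool.Agent.SeqNear
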