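import Pool.Agent.SeqNear.Basic

namespace Pool.Agent.SeqNear

open Pool.Agent.SeqDil

variable {a : ℕ → ℕ}

theorem st_25_3 (G : Good a) : St a (2 ^ 16 * (2 ^ 9 * (1) + 121 + 1) + 38183 + 1) 25 (2 + 1) :=
  state_of G (K := 16) (k := 0) (o := 38183) (A := 1886664) (J := 7) (w := 2) (v := 25) (st_5_3 G)
    (by norm_num) (by norm_num) (by decide +kernel) (by norm_num) (by decide +kernel)
    (by norm_num) (by decide +kernel) (by decide +kernel)
    (fun l h1 h2 => by omega)

end Pool.Agent.SeqNear
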