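import Pool.Agent.SeqNear.Basic

namespace Pool.Agent.SeqNear

open Pool.Agent.SeqDil

variable {a : ℕ → ℕ}

theorem st_41_3 (G : Good a) : St a (2 ^ 15 * (2 ^ 10 * (1) + 347 + 1) + 13327 + 1) 41 (2 + 1) :=
  state_of G (K := 15) (k := 0) (o := 13327) (A := 1014925) (J := 8) (w := 2) (v := 41) (st_7_5 G)
    (by norm_num) (by norm_num) (by decide +kernel) (by norm_num) (by decide +kernel)
    (by norm_num) (by decide +kernel) (by decide +kernel)
    (fun l h1 h2 => by omega)

end Pool.Agent.SeqNear
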