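import Pool.Agent.SeqNear.StA
import Pool.Agent.SeqNear.StB
import Pool.Agent.SeqNear.StC
import Pool.Agent.SeqNear.StD
import Pool.Agent.SeqNear.StE

/-!
# The certificates: `3 ^ j + b` is a value
-/

namespace Pool.Agent.SeqNear

open Pool.Agent.SeqDil

variable {a : ℕ → ℕ}

theorem v_m30 (G : Good a) : ∀ j, 0 + 4 ≤ j → Val a (3 ^ j + (-30)) :=
  val_of_win G (St.root G) 1 7 0 4 38 (-30) (by norm_num) (by norm_num)
    (by decide +kernel) (by decide +kernel)

theorem v_m29 (G : Good a) : ∀ j, 1 + 4 ≤ j → Val a (3 ^ j + (-29)) :=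
  val_of_win G (st_29_3 G) 0 1 1 4 30 (-29) (by norm_num) (by norm_num)
    (by decide +kernel) (by decide +kernel)

theorem v_m28 (G : Good a) : ∀ j, 1 + 4 ≤ j → Val a (3 ^ j + (-28)) :=
  val_of_win G (st_7_3 G) 0 6 1 4 57 (-28) (by norm_num) (by norm_num)
    (by decide +kernel) (by decide +kernel)

theorem v_m26 (G : Good a) : ∀ j, 1 + 3 ≤ j → Val a (3 ^ j + (-26)) :=
  val_of_win G (st_13_3 G) 0 4 1 3 27 (-26) (by norm_num) (by norm_num)
    (by decide +kernel) (by decide +kernel)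

theorem v_m25 (G : Good a) : ∀ j, 1 + 3 ≤ j → Val a (3 ^ j + (-25)) :=
  val_of_win G (st_25_3 G) 0 1 1 3 26 (-25) (by norm_num) (by norm_num)
    (by decide +kernel) (by decide +kernel)

theorem v_m23 (G : Good a) : ∀ j, 1 + 3 ≤ j → Val a (3 ^ j + (-23)) :=
  val_of_win G (st_23_3 G) 0 1 1 3 24 (-23) (by norm_num) (by norm_num)
    (by decide +kernel) (by decide +kernel)

theorem v_m22 (G : Good a) : ∀ j, 1 + 3 ≤ j → Val a (3 ^ j + (-22)) :=
  val_of_win G (st_11_3 G) 0 4 1 3 23 (-22) (by norm_num) (by norm_num)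
    (by decide +kernel) (by decide +kernel)

theorem v_m21 (G : Good a) : ∀ j, 1 + 3 ≤ j → Val a (3 ^ j + (-21)) :=
  val_of_win G (st_7_3 G) 1 5 1 3 22 (-21) (by norm_num) (by norm_num)
    (by decide +kernel) (by decide +kernel)

theorem v_m20 (G : Good a) : ∀ j, 1 + 4 ≤ j → Val a (3 ^ j + (-20)) :=
  val_of_win G (st_5_3 G) 0 6 1 4 41 (-20) (by norm_num) (by norm_num)
    (by decide +kernel) (by decide +kernel)

theorem v_m19 (G : Good a) : ∀ j, 1 + 4 ≤ j → Val a (3 ^ j + (-19)) :=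
  val_of_win G (St.root G) 1 7 1 4 38 (-19) (by norm_num) (by norm_num)
    (by decide +kernel) (by decide +kernel)

theorem v_m18 (G : Good a) : ∀ j, 0 + 4 ≤ j → Val a (3 ^ j + (-18)) :=
  val_of_win G (St.root G) 1 7 0 4 38 (-18) (by norm_num) (by norm_num)
    (by decide +kernel) (by decide +kernel)

theorem v_m17 (G : Good a) : ∀ j, 1 + 3 ≤ j → Val a (3 ^ j + (-17)) :=
  val_of_win G (st_17_3 G) 0 1 1 3 18 (-17) (by norm_num) (by norm_num)
    (by decide +kernel) (by decide +kernel)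

theorem v_m16 (G : Good a) : ∀ j, 0 + 4 ≤ j → Val a (3 ^ j + (-16)) :=
  val_of_win G (St.root G) 1 7 0 4 38 (-16) (by norm_num) (by norm_num)
    (by decide +kernel) (by decide +kernel)

theorem v_m15 (G : Good a) : ∀ j, 1 + 3 ≤ j → Val a (3 ^ j + (-15)) :=
  val_of_win G (st_5_3 G) 1 5 1 3 16 (-15) (by norm_num) (by norm_num)
    (by decide +kernel) (by decide +kernel)

theorem v_m14 (G : Good a) : ∀ j, 1 + 3 ≤ j → Val a (3 ^ j + (-14)) :=
  val_of_win G (st_7_3 G) 0 4 1 3 15 (-14) (by norm_num) (by norm_num)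
    (by decide +kernel) (by decide +kernel)

theorem v_m13 (G : Good a) : ∀ j, 1 + 3 ≤ j → Val a (3 ^ j + (-13)) :=
  val_of_win G (st_13_3 G) 0 1 1 3 14 (-13) (by norm_num) (by norm_num)
    (by decide +kernel) (by decide +kernel)

theorem v_m12 (G : Good a) : ∀ j, 0 + 4 ≤ j → Val a (3 ^ j + (-12)) :=
  val_of_win G (St.root G) 1 7 0 4 38 (-12) (by norm_num) (by norm_num)
    (by decide +kernel) (by decide +kernel)

theorem v_m11 (G : Good a) : ∀ j, 1 + 3 ≤ j → Val a (3 ^ j + (-11)) :=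
  val_of_win G (st_11_3 G) 0 1 1 3 12 (-11) (by norm_num) (by norm_num)
    (by decide +kernel) (by decide +kernel)

theorem v_m10 (G : Good a) : ∀ j, 1 + 3 ≤ j → Val a (3 ^ j + (-10)) :=
  val_of_win G (st_5_3 G) 0 4 1 3 11 (-10) (by norm_num) (by norm_num)
    (by decide +kernel) (by decide +kernel)

theorem v_m8 (G : Good a) : ∀ j, 0 + 4 ≤ j → Val a (3 ^ j + (-8)) :=
  val_of_win G (St.root G) 1 7 0 4 38 (-8) (by norm_num) (by norm_num)
    (by decide +kernel) (by decide +kernel)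

theorem v_m7 (G : Good a) : ∀ j, 1 + 2 ≤ j → Val a (3 ^ j + (-7)) :=
  val_of_win G (st_7_3 G) 0 1 1 2 8 (-7) (by norm_num) (by norm_num)
    (by decide +kernel) (by decide +kernel)

theorem v_m6 (G : Good a) : ∀ j, 0 + 2 ≤ j → Val a (3 ^ j + (-6)) :=
  val_of_win G (St.root G) 0 6 0 2 9 (-6) (by norm_num) (by norm_num)
    (by decide +kernel) (by decide +kernel)

theorem v_m5 (G : Good a) : ∀ j, 0 + 2 ≤ j → Val a (3 ^ j + (-5)) :=
  val_of_win G (St.root G) 0 6 0 2 9 (-5) (by norm_num) (by norm_num)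
    (by decide +kernel) (by decide +kernel)

theorem v_m4 (G : Good a) : ∀ j, 0 + 2 ≤ j → Val a (3 ^ j + (-4)) :=
  val_of_win G (St.root G) 0 6 0 2 9 (-4) (by norm_num) (by norm_num)
    (by decide +kernel) (by decide +kernel)

theorem v_m3 (G : Good a) : ∀ j, 0 + 2 ≤ j → Val a (3 ^ j + (-3)) :=
  val_of_win G (St.root G) 1 5 0 2 4 (-3) (by norm_num) (by norm_num)
    (by decide +kernel) (by decide +kernel)

theorem v_m2 (G : Good a) : ∀ j, 0 + 1 ≤ j → Val a (3 ^ j + (-2)) :=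
  val_of_win G (St.root G) 0 4 0 1 3 (-2) (by norm_num) (by norm_num)
    (by decide +kernel) (by decide +kernel)

theorem v_m1 (G : Good a) : ∀ j, 0 + 1 ≤ j → Val a (3 ^ j + (-1)) :=
  val_of_win G (St.root G) 0 1 0 1 2 (-1) (by norm_num) (by norm_num)
    (by decide +kernel) (by decide +kernel)

theorem v_0 (G : Good a) : ∀ j, 0 + 1 ≤ j → Val a (3 ^ j + (0)) :=
  val_of_win G (St.root G) 0 2 0 1 2 (0) (by norm_num) (by norm_num)
    (by decide +kernel) (by decide +kernel)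

theorem v_1 (G : Good a) : ∀ j, 0 + 1 ≤ j → Val a (3 ^ j + (1)) :=
  val_of_win G (St.root G) 0 3 0 1 2 (1) (by norm_num) (by norm_num)
    (by decide +kernel) (by decide +kernel)

theorem v_2 (G : Good a) : ∀ j, 0 + 1 ≤ j → Val a (3 ^ j + (2)) :=
  val_of_win G (St.root G) 1 4 0 1 3 (2) (by norm_num) (by norm_num)
    (by decide +kernel) (by decide +kernel)

theorem v_4 (G : Good a) : ∀ j, 0 + 3 ≤ j → Val a (3 ^ j + (4)) :=
  val_of_win G (St.root G) 1 6 0 3 11 (4) (by norm_num) (by norm_num)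
    (by decide +kernel) (by decide +kernel)

theorem v_5 (G : Good a) : ∀ j, 1 + 2 ≤ j → Val a (3 ^ j + (5)) :=
  val_of_win G (st_5_3 G) 0 3 1 2 6 (5) (by norm_num) (by norm_num)
    (by decide +kernel) (by decide +kernel)

theorem v_6 (G : Good a) : ∀ j, 1 + 3 ≤ j → Val a (3 ^ j + (6)) :=
  val_of_win G (St.root G) 1 6 1 3 11 (6) (by norm_num) (by norm_num)
    (by decide +kernel) (by decide +kernel)

theorem v_7 (G : Good a) : ∀ j, 1 + 2 ≤ j → Val a (3 ^ j + (7)) :=
  val_of_win G (st_7_3 G) 0 3 1 2 8 (7) (by norm_num) (by norm_num)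
    (by decide +kernel) (by decide +kernel)

theorem v_8 (G : Good a) : ∀ j, 0 + 4 ≤ j → Val a (3 ^ j + (8)) :=
  val_of_win G (St.root G) 0 7 0 4 32 (8) (by norm_num) (by norm_num)
    (by decide +kernel) (by decide +kernel)

theorem v_9 (G : Good a) : ∀ j, 0 + 4 ≤ j → Val a (3 ^ j + (9)) :=
  val_of_win G (St.root G) 0 7 0 4 32 (9) (by norm_num) (by norm_num)
    (by decide +kernel) (by decide +kernel)

theorem v_10 (G : Good a) : ∀ j, 1 + 3 ≤ j → Val a (3 ^ j + (10)) :=
  val_of_win G (st_5_3 G) 1 4 1 3 11 (10) (by norm_num) (by norm_num)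
    (by decide +kernel) (by decide +kernel)

theorem v_11 (G : Good a) : ∀ j, 1 + 3 ≤ j → Val a (3 ^ j + (11)) :=
  val_of_win G (st_11_3 G) 0 3 1 3 12 (11) (by norm_num) (by norm_num)
    (by decide +kernel) (by decide +kernel)

theorem v_12 (G : Good a) : ∀ j, 0 + 4 ≤ j → Val a (3 ^ j + (12)) :=
  val_of_win G (St.root G) 0 7 0 4 32 (12) (by norm_num) (by norm_num)
    (by decide +kernel) (by decide +kernel)

theorem v_13 (G : Good a) : ∀ j, 1 + 3 ≤ j → Val a (3 ^ j + (13)) :=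
  val_of_win G (st_13_3 G) 0 3 1 3 14 (13) (by norm_num) (by norm_num)
    (by decide +kernel) (by decide +kernel)

theorem v_14 (G : Good a) : ∀ j, 1 + 3 ≤ j → Val a (3 ^ j + (14)) :=
  val_of_win G (st_7_3 G) 1 4 1 3 15 (14) (by norm_num) (by norm_num)
    (by decide +kernel) (by decide +kernel)

theorem v_16 (G : Good a) : ∀ j, 1 + 4 ≤ j → Val a (3 ^ j + (16)) :=
  val_of_win G (St.root G) 0 7 1 4 32 (16) (by norm_num) (by norm_num)
    (by decide +kernel) (by decide +kernel)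

theorem v_17 (G : Good a) : ∀ j, 1 + 3 ≤ j → Val a (3 ^ j + (17)) :=
  val_of_win G (st_17_3 G) 0 3 1 3 18 (17) (by norm_num) (by norm_num)
    (by decide +kernel) (by decide +kernel)

theorem v_18 (G : Good a) : ∀ j, 0 + 5 ≤ j → Val a (3 ^ j + (18)) :=
  val_of_win G (St.root G) 1 8 0 5 143 (18) (by norm_num) (by norm_num)
    (by decide +kernel) (by decide +kernel)

theorem v_19 (G : Good a) : ∀ j, 1 + 4 ≤ j → Val a (3 ^ j + (19)) :=
  val_of_win G (St.root G) 0 7 1 4 32 (19) (by norm_num) (by norm_num)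
    (by decide +kernel) (by decide +kernel)

theorem v_20 (G : Good a) : ∀ j, 1 + 4 ≤ j → Val a (3 ^ j + (20)) :=
  val_of_win G (st_5_3 G) 1 6 1 4 51 (20) (by norm_num) (by norm_num)
    (by decide +kernel) (by decide +kernel)

theorem v_21 (G : Good a) : ∀ j, 0 + 5 ≤ j → Val a (3 ^ j + (21)) :=
  val_of_win G (St.root G) 1 8 0 5 143 (21) (by norm_num) (by norm_num)
    (by decide +kernel) (by decide +kernel)

theorem v_22 (G : Good a) : ∀ j, 1 + 3 ≤ j → Val a (3 ^ j + (22)) :=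
  val_of_win G (st_11_3 G) 1 4 1 3 23 (22) (by norm_num) (by norm_num)
    (by decide +kernel) (by decide +kernel)

theorem v_23 (G : Good a) : ∀ j, 1 + 3 ≤ j → Val a (3 ^ j + (23)) :=
  val_of_win G (st_23_3 G) 0 3 1 3 24 (23) (by norm_num) (by norm_num)
    (by decide +kernel) (by decide +kernel)

theorem v_24 (G : Good a) : ∀ j, 0 + 4 ≤ j → Val a (3 ^ j + (24)) :=
  val_of_win G (St.root G) 0 7 0 4 32 (24) (by norm_num) (by norm_num)
    (by decide +kernel) (by decide +kernel)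

theorem v_25 (G : Good a) : ∀ j, 1 + 3 ≤ j → Val a (3 ^ j + (25)) :=
  val_of_win G (st_25_3 G) 0 3 1 3 26 (25) (by norm_num) (by norm_num)
    (by decide +kernel) (by decide +kernel)

theorem v_26 (G : Good a) : ∀ j, 1 + 3 ≤ j → Val a (3 ^ j + (26)) :=
  val_of_win G (st_13_3 G) 1 4 1 3 27 (26) (by norm_num) (by norm_num)
    (by decide +kernel) (by decide +kernel)

theorem v_28 (G : Good a) : ∀ j, 1 + 4 ≤ j → Val a (3 ^ j + (28)) :=
  val_of_win G (st_7_3 G) 1 6 1 4 71 (28) (by norm_num) (by norm_num)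
    (by decide +kernel) (by decide +kernel)

theorem v_29 (G : Good a) : ∀ j, 1 + 4 ≤ j → Val a (3 ^ j + (29)) :=
  val_of_win G (st_29_3 G) 0 3 1 4 30 (29) (by norm_num) (by norm_num)
    (by decide +kernel) (by decide +kernel)

theorem v_30 (G : Good a) : ∀ j, 2 + 4 ≤ j → Val a (3 ^ j + (30)) :=
  val_of_win G (st_5_3 G) 1 6 2 4 51 (30) (by norm_num) (by norm_num)
    (by decide +kernel) (by decide +kernel)

theorem v_31 (G : Good a) : ∀ j, 1 + 5 ≤ j → Val a (3 ^ j + (31)) :=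
  val_of_win G (St.root G) 1 8 1 5 143 (31) (by norm_num) (by norm_num)
    (by decide +kernel) (by decide +kernel)

theorem v_32 (G : Good a) : ∀ j, 0 + 5 ≤ j → Val a (3 ^ j + (32)) :=
  val_of_win G (St.root G) 1 8 0 5 143 (32) (by norm_num) (by norm_num)
    (by decide +kernel) (by decide +kernel)

theorem v_34 (G : Good a) : ∀ j, 1 + 4 ≤ j → Val a (3 ^ j + (34)) :=
  val_of_win G (st_17_3 G) 1 4 1 4 35 (34) (by norm_num) (by norm_num)
    (by decide +kernel) (by decide +kernel)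

theorem v_35 (G : Good a) : ∀ j, 1 + 4 ≤ j → Val a (3 ^ j + (35)) :=
  val_of_win G (st_5_3 G) 1 6 1 4 51 (35) (by norm_num) (by norm_num)
    (by decide +kernel) (by decide +kernel)

theorem v_36 (G : Good a) : ∀ j, 0 + 5 ≤ j → Val a (3 ^ j + (36)) :=
  val_of_win G (St.root G) 1 8 0 5 143 (36) (by norm_num) (by norm_num)
    (by decide +kernel) (by decide +kernel)

theorem v_37 (G : Good a) : ∀ j, 0 + 5 ≤ j → Val a (3 ^ j + (37)) :=
  val_of_win G (St.root G) 1 8 0 5 143 (37) (by norm_num) (by norm_num)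
    (by decide +kernel) (by decide +kernel)

theorem v_38 (G : Good a) : ∀ j, 0 + 5 ≤ j → Val a (3 ^ j + (38)) :=
  val_of_win G (St.root G) 1 8 0 5 143 (38) (by norm_num) (by norm_num)
    (by decide +kernel) (by decide +kernel)

theorem v_40 (G : Good a) : ∀ j, 1 + 5 ≤ j → Val a (3 ^ j + (40)) :=
  val_of_win G (st_5_3 G) 0 7 1 5 156 (40) (by norm_num) (by norm_num)
    (by decide +kernel) (by decide +kernel)

theorem v_41 (G : Good a) : ∀ j, 1 + 4 ≤ j → Val a (3 ^ j + (41)) :=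
  val_of_win G (st_41_3 G) 0 3 1 4 42 (41) (by norm_num) (by norm_num)
    (by decide +kernel) (by decide +kernel)

theorem v_42 (G : Good a) : ∀ j, 2 + 4 ≤ j → Val a (3 ^ j + (42)) :=
  val_of_win G (st_7_3 G) 1 6 2 4 71 (42) (by norm_num) (by norm_num)
    (by decide +kernel) (by decide +kernel)

theorem v_43 (G : Good a) : ∀ j, 1 + 5 ≤ j → Val a (3 ^ j + (43)) :=
  val_of_win G (St.root G) 1 8 1 5 143 (43) (by norm_num) (by norm_num)
    (by decide +kernel) (by decide +kernel)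

theorem v_44 (G : Good a) : ∀ j, 1 + 5 ≤ j → Val a (3 ^ j + (44)) :=
  val_of_win G (st_11_3 G) 1 6 1 5 111 (44) (by norm_num) (by norm_num)
    (by decide +kernel) (by decide +kernel)

theorem v_45 (G : Good a) : ∀ j, 0 + 5 ≤ j → Val a (3 ^ j + (45)) :=
  val_of_win G (St.root G) 1 8 0 5 143 (45) (by norm_num) (by norm_num)
    (by decide +kernel) (by decide +kernel)

theorem v_46 (G : Good a) : ∀ j, 1 + 4 ≤ j → Val a (3 ^ j + (46)) :=
  val_of_win G (st_23_3 G) 1 4 1 4 47 (46) (by norm_num) (by norm_num)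
    (by decide +kernel) (by decide +kernel)

theorem v_47 (G : Good a) : ∀ j, 1 + 5 ≤ j → Val a (3 ^ j + (47)) :=
  val_of_win G (St.root G) 1 8 1 5 143 (47) (by norm_num) (by norm_num)
    (by decide +kernel) (by decide +kernel)

theorem v_49 (G : Good a) : ∀ j, 1 + 4 ≤ j → Val a (3 ^ j + (49)) :=
  val_of_win G (st_7_3 G) 1 6 1 4 71 (49) (by norm_num) (by norm_num)
    (by decide +kernel) (by decide +kernel)

theorem v_50 (G : Good a) : ∀ j, 1 + 4 ≤ j → Val a (3 ^ j + (50)) :=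
  val_of_win G (st_25_3 G) 1 4 1 4 51 (50) (by norm_num) (by norm_num)
    (by decide +kernel) (by decide +kernel)

theorem v_52 (G : Good a) : ∀ j, 1 + 5 ≤ j → Val a (3 ^ j + (52)) :=
  val_of_win G (st_13_3 G) 1 6 1 5 131 (52) (by norm_num) (by norm_num)
    (by decide +kernel) (by decide +kernel)

theorem v_m24 (G : Good a) : ∀ j, 5 ≤ j → Val a (3 ^ j + (-24)) := by
  intro j hj
  obtain ⟨i, rfl⟩ : ∃ i, j = i + 1 := ⟨j - 1, by omega⟩
  have h := Val.three G (v_m8 G i (by omega))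
  have e : (3 : ℤ) * (3 ^ i + (-8)) = 3 ^ (i + 1) + (-24) := by ring
  rwa [e] at h

theorem v_m9 (G : Good a) : ∀ j, 3 ≤ j → Val a (3 ^ j + (-9)) := by
  intro j hj
  obtain ⟨i, rfl⟩ : ∃ i, j = i + 1 := ⟨j - 1, by omega⟩
  have h := Val.three G (v_m3 G i (by omega))
  have e : (3 : ℤ) * (3 ^ i + (-3)) = 3 ^ (i + 1) + (-9) := by ring
  rwa [e] at h

theorem v_3 (G : Good a) : ∀ j, 2 ≤ j → Val a (3 ^ j + (3)) := by
  intro j hj
  obtain ⟨i, rfl⟩ : ∃ i, j = i + 1 := ⟨j - 1, by omega⟩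
  have h := Val.three G (v_1 G i (by omega))
  have e : (3 : ℤ) * (3 ^ i + (1)) = 3 ^ (i + 1) + (3) := by ring
  rwa [e] at h

theorem v_15 (G : Good a) : ∀ j, 4 ≤ j → Val a (3 ^ j + (15)) := by
  intro j hj
  obtain ⟨i, rfl⟩ : ∃ i, j = i + 1 := ⟨j - 1, by omega⟩
  have h := Val.three G (v_5 G i (by omega))
  have e : (3 : ℤ) * (3 ^ i + (5)) = 3 ^ (i + 1) + (15) := by ring
  rwa [e] at h

theorem v_27 (G : Good a) : ∀ j, 5 ≤ j → Val a (3 ^ j + (27)) := by
  intro j hj
  obtain ⟨i, rfl⟩ : ∃ i, j = i + 1 := ⟨j - 1, by omega⟩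
  have h := Val.three G (v_9 G i (by omega))
  have e : (3 : ℤ) * (3 ^ i + (9)) = 3 ^ (i + 1) + (27) := by ring
  rwa [e] at h

theorem v_33 (G : Good a) : ∀ j, 5 ≤ j → Val a (3 ^ j + (33)) := by
  intro j hj
  obtain ⟨i, rfl⟩ : ∃ i, j = i + 1 := ⟨j - 1, by omega⟩
  have h := Val.three G (v_11 G i (by omega))
  have e : (3 : ℤ) * (3 ^ i + (11)) = 3 ^ (i + 1) + (33) := by ring
  rwa [e] at h

theorem v_39 (G : Good a) : ∀ j, 5 ≤ j → Val a (3 ^ j + (39)) := by
  intro j hj
  obtain ⟨i, rfl⟩ : ∃ i, j = i + 1 := ⟨j - 1, by omega⟩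
  have h := Val.three G (v_13 G i (by omega))
  have e : (3 : ℤ) * (3 ^ i + (13)) = 3 ^ (i + 1) + (39) := by ring
  rwa [e] at h

theorem v_48 (G : Good a) : ∀ j, 6 ≤ j → Val a (3 ^ j + (48)) := by
  intro j hj
  obtain ⟨i, rfl⟩ : ∃ i, j = i + 1 := ⟨j - 1, by omega⟩
  have h := Val.three G (v_16 G i (by omega))
  have e : (3 : ℤ) * (3 ^ i + (16)) = 3 ^ (i + 1) + (48) := by ring
  rwa [e] at h

theorem v_51 (G : Good a) : ∀ j, 5 ≤ j → Val a (3 ^ j + (51)) := by
  intro j hj
  obtain ⟨i, rfl⟩ : ∃ i, j = i + 1 := ⟨j - 1, by omega⟩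
  have h := Val.three G (v_17 G i (by omega))
  have e : (3 : ℤ) * (3 ^ i + (17)) = 3 ^ (i + 1) + (51) := by ring
  rwa [e] at h

theorem v_m27 (G : Good a) : ∀ j, 4 ≤ j → Val a (3 ^ j + (-27)) := by
  intro j hj
  obtain ⟨i, rfl⟩ : ∃ i, j = i + 1 := ⟨j - 1, by omega⟩
  have h := Val.three G (v_m9 G i (by omega))
  have e : (3 : ℤ) * (3 ^ i + (-9)) = 3 ^ (i + 1) + (-27) := by ring
  rwa [e] at h

theorem near (G : Good a) (j : ℕ) (hj : 6 ≤ j) (b : ℤ) (h1 : -30 ≤ b) (h2 : b ≤ 52) :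
    Val a (3 ^ j + b) := by
  interval_cases b
  · exact v_m30 G j (by omega)
  · exact v_m29 G j (by omega)
  · exact v_m28 G j (by omega)
  · exact v_m27 G j (by omega)
  · exact v_m26 G j (by omega)
  · exact v_m25 G j (by omega)
  · exact v_m24 G j (by omega)
  · exact v_m23 G j (by omega)
  · exact v_m22 G j (by omega)
  · exact v_m21 G j (by omega)
  · exact v_m20 G j (by omega)
  · exact v_m19 G j (by omega)
  · exact v_m18 G j (by omega)
  · exact v_m17 G j (by omega)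
  · exact v_m16 G j (by omega)
  · exact v_m15 G j (by omega)
  · exact v_m14 G j (by omega)
  · exact v_m13 G j (by omega)
  · exact v_m12 G j (by omega)
  · exact v_m11 G j (by omega)
  · exact v_m10 G j (by omega)
  · exact v_m9 G j (by omega)
  · exact v_m8 G j (by omega)
  · exact v_m7 G j (by omega)
  · exact v_m6 G j (by omega)
  · exact v_m5 G j (by omega)
  · exact v_m4 G j (by omega)
  · exact v_m3 G j (by omega)
  · exact v_m2 G j (by omega)
  · exact v_m1 G j (by omega)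
  · simpa using v_0 G j (by omega)
  · exact v_1 G j (by omega)
  · exact v_2 G j (by omega)
  · exact v_3 G j (by omega)
  · exact v_4 G j (by omega)
  · exact v_5 G j (by omega)
  · exact v_6 G j (by omega)
  · exact v_7 G j (by omega)
  · exact v_8 G j (by omega)
  · exact v_9 G j (by omega)
  · exact v_10 G j (by omega)
  · exact v_11 G j (by omega)
  · exact v_12 G j (by omega)
  · exact v_13 G j (by omega)
  · exact v_14 G j (by omega)
  · exact v_15 G j (by omega)
  · exact v_16 G j (by omega)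
  · exact v_17 G j (by omega)
  · exact v_18 G j (by omega)
  · exact v_19 G j (by omega)
  · exact v_20 G j (by omega)
  · exact v_21 G j (by omega)
  · exact v_22 G j (by omega)
  · exact v_23 G j (by omega)
  · exact v_24 G j (by omega)
  · exact v_25 G j (by omega)
  · exact v_26 G j (by omega)
  · exact v_27 G j (by omega)
  · exact v_28 G j (by omega)
  · exact v_29 G j (by omega)
  · exact v_30 G j (by omega)
  · exact v_31 G j (by omega)
  · exact v_32 G j (by omega)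
  · exact v_33 G j (by omega)
  · exact v_34 G j (by omega)
  · exact v_35 G j (by omega)
  · exact v_36 G j (by omega)
  · exact v_37 G j (by omega)
  · exact v_38 G j (by omega)
  · exact v_39 G j (by omega)
  · exact v_40 G j (by omega)
  · exact v_41 G j (by omega)
  · exact v_42 G j (by omega)
  · exact v_43 G j (by omega)
  · exact v_44 G j (by omega)
  · exact v_45 G j (by omega)
  · exact v_46 G j (by omega)
  · exact v_47 G j (by omega)
  · exact v_48 G j (by omega)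
  · exact v_49 G j (by omega)
  · exact v_50 G j (by omega)
  · exact v_51 G j (by omega)
  · exact v_52 G j (by omega)

end Pool.Agent.SeqNear
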